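import Pool.Agent.P.MP_d4bf6a_co.Ramsey

namespace Pool.Agent.P.MP_d4bf6a_co

open SimpleGraph Finset Filter Topology

/-- all equidistant sets have at most `a` vertices -/
def EqLe {V : Type} (G : SimpleGraph V) (a : ℕ) : Prop :=
  ∀ S : Finset V, IsEquidistant G S → S.card ≤ a

lemma edist_map {V W : Type} {G : SimpleGraph V} {H : SimpleGraph W} (f : G →g H)
    (hinj : Function.Injective f)
    (hcl : ∀ v w', H.Adj (f v) w' → ∃ w, f w = w' ∧ G.Adj v w) (u v : V) :
    H.edist (f u) (f v) = G.edist u v := by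
  apply le_antisymm
  · by_cases h : G.edist u v = ⊤
    · rw [h]; exact le_top
    · obtain ⟨p, hp⟩ := exists_walk_of_edist_ne_top h
      rw [← hp]
      have := edist_le (p.map f)
      rwa [Walk.length_map] at this
  · by_cases h : H.edist (f u) (f v) = ⊤
    · rw [h]; exact le_top
    · obtain ⟨p, hp⟩ := exists_walk_of_edist_ne_top h
      rw [← hp]
      have key : ∀ (x y : W) (p : H.Walk x y) (u : V), f u = x →
          ∃ v', f v' = y ∧ ∃ q : G.Walk u v', q.length = p.length := by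
        intro x y p
        induction p with
        | nil => intro u hu; exact ⟨u, hu, Walk.nil, rfl⟩
        | cons hadj p ih =>
          intro u hu
          subst hu
          obtain ⟨w, hw, hG⟩ := hcl _ _ hadj
          obtain ⟨v', hv', q, hq⟩ := ih w hw
          exact ⟨v', hv', Walk.cons hG q, by simp [hq]⟩
      obtain ⟨v', hv', q, hq⟩ := key _ _ p u rfl
      have := hinj hv'
      subst this
      rw [← hq]
      exact edist_le q

lemma edist_iso {V W : Type} {G : SimpleGraph V} {H : SimpleGraph W} (f : G ≃g H) (u v : V) :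
    H.edist (f u) (f v) = G.edist u v := by
  refine edist_map f.toHom f.injective ?_ u v
  intro v w' h
  refine ⟨f.symm w', by simp, ?_⟩
  rw [← f.map_adj_iff]
  simpa using h

lemma edist_inl {V W : Type} (G : SimpleGraph V) (H : SimpleGraph W) (u v : V) :
    (G ⊕g H).edist (.inl u) (.inl v) = G.edist u v := by
  refine edist_map (Embedding.sumInl (G := G) (H := H)).toHom Sum.inl_injective ?_ u v
  intro v w' h
  cases w' with
  | inl w => exact ⟨w, rfl, sum_adj_inl.mp h⟩
  | inr w => exact absurd h (not_adj_sum_inl_inr _ _)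

lemma edist_inr {V W : Type} (G : SimpleGraph V) (H : SimpleGraph W) (u v : W) :
    (G ⊕g H).edist (.inr u) (.inr v) = H.edist u v := by
  refine edist_map (Embedding.sumInr (G := G) (H := H)).toHom Sum.inr_injective ?_ u v
  intro v w' h
  cases w' with
  | inl w => exact absurd h.symm (not_adj_sum_inl_inr _ _)
  | inr w => exact ⟨w, rfl, sum_adj_inr.mp h⟩

lemma edist_inl_inr {V W : Type} (G : SimpleGraph V) (H : SimpleGraph W) (u : V) (v : W) :
    (G ⊕g H).edist (.inl u) (.inr v) = ⊤ :=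
  edist_eq_top_of_not_reachable (not_reachable_sum_inl_inr u v)

/-- equidistance is transported along distance-preserving injections -/
lemma isEquidistant_map_iff {V W : Type} {G : SimpleGraph V} {H : SimpleGraph W} (f : V ↪ W)
    (hf : ∀ u v, H.edist (f u) (f v) = G.edist u v) (S : Finset V) :
    IsEquidistant H (S.map f) ↔ IsEquidistant G S := by
  constructor
  · rintro ⟨k, hk, h⟩
    refine ⟨k, hk, fun u hu v hv huv => ?_⟩
    rw [← hf]
    exact h _ (Finset.mem_map_of_mem f hu) _ (Finset.mem_map_of_mem f hv)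
      (fun e => huv (f.injective e))
  · rintro ⟨k, hk, h⟩
    refine ⟨k, hk, fun u hu v hv huv => ?_⟩
    obtain ⟨i, hi, rfl⟩ := Finset.mem_map.mp hu
    obtain ⟨j, hj, rfl⟩ := Finset.mem_map.mp hv
    rw [hf]
    exact h i hi j hj (fun e => huv (by rw [e]))

lemma EqLe.of_iso {V W : Type} {G : SimpleGraph V} {H : SimpleGraph W} (f : G ≃g H) {a : ℕ}
    (h : EqLe H a) : EqLe G a := by
  intro S hS
  have := h (S.map f.toEquiv.toEmbedding)
    ((isEquidistant_map_iff f.toEquiv.toEmbedding (edist_iso f) S).mpr hS)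
  rwa [Finset.card_map] at this

lemma EqLe.sum {V W : Type} {G : SimpleGraph V} {H : SimpleGraph W} {a : ℕ}
    (hG : EqLe G a) (hH : EqLe H a) : EqLe (G ⊕g H) a := by
  classical
  intro S hS
  by_cases hl : ∃ w, Sum.inr w ∈ S
  · obtain ⟨w, hw⟩ := hl
    have hno : ∀ v, Sum.inl v ∉ S := by
      intro v hv
      obtain ⟨k, _, h⟩ := hS
      have := h _ hv _ hw (by simp)
      rw [edist_inl_inr] at this
      exact absurd this (by simp)
    have hEq : S = (S.toRight).map Function.Embedding.inr := by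
      ext x
      cases x with
      | inl v => simp [hno v]
      | inr v => simp
    rw [hEq] at hS ⊢
    rw [Finset.card_map]
    exact hH _ ((isEquidistant_map_iff _ (edist_inr G H) _).mp hS)
  · have hEq : S = (S.toLeft).map Function.Embedding.inl := by
      ext x
      cases x with
      | inl v => simp
      | inr v =>
        have : Sum.inr v ∉ S := fun h => hl ⟨v, h⟩
        simp [this]
    rw [hEq] at hS ⊢
    rw [Finset.card_map]
    exact hG _ ((isEquidistant_map_iff _ (edist_inl G H) _).mp hS)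

lemma ncard_iso {V W : Type} {G : SimpleGraph V} {H : SimpleGraph W} (f : G ≃g H) :
    G.edgeSet.ncard = H.edgeSet.ncard := by
  rw [← Nat.card_coe_set_eq, ← Nat.card_coe_set_eq]
  exact Nat.card_congr f.mapEdgeSet

lemma ncard_sum {V W : Type} [Finite V] [Finite W] (G : SimpleGraph V) (H : SimpleGraph W) :
    (G ⊕g H).edgeSet.ncard = G.edgeSet.ncard + H.edgeSet.ncard := by
  rw [← Nat.card_coe_set_eq, ← Nat.card_coe_set_eq, ← Nat.card_coe_set_eq,
    Nat.card_congr edgeSetSumEquiv, Nat.card_sum]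

lemma isEquidistant_of_clique {V : Type} {G : SimpleGraph V} {S : Finset V}
    (h : G.IsClique (S : Set V)) : IsEquidistant G S :=
  ⟨1, le_rfl, fun u hu v hv huv => by
    rw [Nat.cast_one, edist_eq_one_iff_adj]; exact h hu hv huv⟩

lemma eqLe_of_ramsey {V : Type} {G : SimpleGraph V} {a : ℕ}
    (h₁ : ∀ S, ¬ G.IsNClique (a + 1) S) (h₂ : ∀ S, ¬ G.IsNIndepSet (a + 1) S) : EqLe G a := by
  classical
  rintro S ⟨k, hk, h⟩
  by_contra hlt
  obtain ⟨T, hTS, hT⟩ := Finset.exists_subset_card_eq (show a + 1 ≤ S.card by omega)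
  by_cases hk1 : k = 1
  · apply h₁ T
    refine ⟨fun u hu v hv huv => ?_, hT⟩
    have := h u (hTS hu) v (hTS hv) huv
    rwa [hk1, Nat.cast_one, edist_eq_one_iff_adj] at this
  · apply h₂ T
    refine ⟨fun u hu v hv huv hadj => ?_, hT⟩
    have := h u (hTS hu) v (hTS hv) huv
    rw [edist_eq_one_iff_adj.mpr hadj] at this
    exact hk1 (by exact_mod_cast this.symm)

lemma degree_lt {V : Type} [Fintype V] {G : SimpleGraph V} [DecidableRel G.Adj] {a : ℕ}
    (h : EqLe G a) (v : V) : G.degree v < ramseyNum a (a + 1) := by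
  classical
  by_contra hlt
  rcases hit_of_ramseyNum_le (s := a) (t := a + 1) G (G.neighborFinset v)
    (by rw [card_neighborFinset_eq_degree]; omega) with ⟨S, hS, hc⟩ | ⟨S, hS, hc⟩
  · have h2 : G.IsNClique (a + 1) (insert v S) :=
      hc.insert (fun b hb => (mem_neighborFinset _ _ _).mp (hS hb))
    have := h _ (isEquidistant_of_clique h2.isClique)
    rw [h2.card_eq] at this
    omega
  · have : IsEquidistant G S := by
      refine ⟨2, by norm_num, fun x hx y hy hxy => ?_⟩
      rw [Nat.cast_ofNat, edist_eq_two_iff]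
      refine ⟨hxy, hc.isIndepSet hx hy hxy, v, ?_⟩
      rw [mem_commonNeighbors]
      exact ⟨((mem_neighborFinset _ _ _).mp (hS hx)).symm,
        ((mem_neighborFinset _ _ _).mp (hS hy)).symm⟩
    have := h _ this
    rw [hc.card_eq] at this
    omega

lemma two_mul_ncard_le {V : Type} [Fintype V] {G : SimpleGraph V} {a : ℕ} (h : EqLe G a) :
    2 * G.edgeSet.ncard ≤ Fintype.card V * (ramseyNum a (a + 1) - 1) := by
  classical
  have h1 : G.edgeSet.ncard = G.edgeFinset.card := by
    rw [← coe_edgeFinset, Set.ncard_coe_finset]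
  rw [h1, ← sum_degrees_eq_twice_card_edges]
  calc ∑ v, G.degree v ≤ ∑ _v : V, (ramseyNum a (a + 1) - 1) :=
        Finset.sum_le_sum (fun v _ => by have := degree_lt h v; omega)
    _ = _ := by simp

lemma eqLe_bot {V : Type} {a : ℕ} (ha : 1 ≤ a) : EqLe (⊥ : SimpleGraph V) a := by
  rintro S ⟨k, _, h⟩
  by_contra hlt
  obtain ⟨u, hu, v, hv, huv⟩ := Finset.one_lt_card.mp (show 1 < S.card by omega)
  have := h u hu v hv huv
  rw [edist_bot_of_ne huv] at this
  exact absurd this (by simp)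

lemma eqSet_bdd {n : ℕ} (G : SimpleGraph (Fin n)) :
    BddAbove {m : ℕ | ∃ S : Finset (Fin n), IsEquidistant G S ∧ S.card = m} :=
  ⟨n, by rintro m ⟨S, _, rfl⟩; simpa using Finset.card_le_univ S⟩

lemma eqNum_le_iff {n a : ℕ} (G : SimpleGraph (Fin n)) : eqNum G ≤ a ↔ EqLe G a := by
  unfold eqNum
  rw [csSup_le_iff (eqSet_bdd G) ⟨0, ∅, ⟨1, le_rfl, by simp⟩, rfl⟩]
  constructor
  · intro h S hS; exact h _ ⟨S, hS, rfl⟩
  · rintro h m ⟨S, hS, rfl⟩; exact h S hS

lemma eqNum_eq {n a : ℕ} (G : SimpleGraph (Fin n)) (h : EqLe G a) (S : Finset (Fin n))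
    (hS : IsEquidistant G S) (hc : S.card = a) : eqNum G = a :=
  le_antisymm ((eqNum_le_iff G).mpr h) (le_csSup (eqSet_bdd G) ⟨S, hS, hc⟩)

lemma ncard_le_card_sym2 {n : ℕ} (G : SimpleGraph (Fin n)) :
    G.edgeSet.ncard ≤ Fintype.card (Sym2 (Fin n)) := by
  rw [← Nat.card_eq_fintype_card, ← Set.ncard_univ]
  exact Set.ncard_le_ncard (Set.subset_univ _) Set.finite_univ

lemma le_exEq {V : Type} [Fintype V] {G : SimpleGraph V} {a : ℕ} (h : EqLe G a) (S : Finset V)
    (hS : IsEquidistant G S) (hc : S.card = a) :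
    G.edgeSet.ncard ≤ exEq (Fintype.card V) a := by
  let e := Fintype.equivFin V
  let f : G ≃g G.map e.toEmbedding := Iso.map e G
  apply le_csSup
  · exact ⟨_, by rintro m ⟨G, _, rfl⟩; exact ncard_le_card_sym2 G⟩
  · refine ⟨G.map e.toEmbedding, ?_, (ncard_iso f).symm⟩
    refine eqNum_eq _ (h.of_iso f.symm) (S.map e.toEmbedding) ?_ (by rw [Finset.card_map, hc])
    exact (isEquidistant_map_iff e.toEmbedding (edist_iso f) S).mpr hS

/-- the monotone version of the extremal function -/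
noncomputable def exLe (a n : ℕ) : ℕ :=
  sSup {m : ℕ | ∃ G : SimpleGraph (Fin n), EqLe G a ∧ G.edgeSet.ncard = m}

lemma le_exLe {V : Type} [Fintype V] {G : SimpleGraph V} {a : ℕ} (h : EqLe G a) :
    G.edgeSet.ncard ≤ exLe a (Fintype.card V) := by
  let e := Fintype.equivFin V
  let f : G ≃g G.map e.toEmbedding := Iso.map e G
  apply le_csSup
  · exact ⟨_, by rintro m ⟨G, _, rfl⟩; exact ncard_le_card_sym2 G⟩
  · exact ⟨G.map e.toEmbedding, h.of_iso f.symm, (ncard_iso f).symm⟩

lemma exLe_spec {a : ℕ} (ha : 1 ≤ a) (n : ℕ) :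
    ∃ G : SimpleGraph (Fin n), EqLe G a ∧ G.edgeSet.ncard = exLe a n :=
  Nat.sSup_mem (s := {m : ℕ | ∃ G : SimpleGraph (Fin n), EqLe G a ∧ G.edgeSet.ncard = m})
    ⟨_, ⊥, eqLe_bot ha, rfl⟩ ⟨_, by rintro m ⟨G, _, rfl⟩; exact ncard_le_card_sym2 G⟩

lemma exLe_superadd {a : ℕ} (ha : 1 ≤ a) (m n : ℕ) : exLe a m + exLe a n ≤ exLe a (m + n) := by
  obtain ⟨G, hG, hG'⟩ := exLe_spec ha m
  obtain ⟨H, hH, hH'⟩ := exLe_spec ha n
  have := le_exLe (hG.sum hH)
  rw [ncard_sum, hG', hH'] at this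
  simpa using this

lemma exEq_le_exLe (n a : ℕ) : exEq n a ≤ exLe a n := by
  unfold exEq
  apply csSup_le'
  rintro m ⟨G, hG, rfl⟩
  have := le_exLe ((eqNum_le_iff G).mp hG.le)
  simpa using this

lemma eqLe_top (a : ℕ) : EqLe (⊤ : SimpleGraph (Fin a)) a := fun S _ => by
  simpa using Finset.card_le_univ S

lemma exLe_le_exEq {a : ℕ} (ha : 1 ≤ a) (n : ℕ) : exLe a n ≤ exEq (n + a) a := by
  obtain ⟨G, hG, hG'⟩ := exLe_spec ha n
  have h1 := le_exEq (hG.sum (eqLe_top a)) (Finset.univ.map Function.Embedding.inr)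
    ((isEquidistant_map_iff _ (edist_inr G _) _).mpr (isEquidistant_of_clique
      (fun u _ v _ huv => huv))) (by simp)
  rw [ncard_sum, hG'] at h1
  simp only [Fintype.card_sum, Fintype.card_fin] at h1
  omega

lemma exLe_upper {a : ℕ} (ha : 1 ≤ a) (n : ℕ) :
    2 * exLe a n ≤ n * (ramseyNum a (a + 1) - 1) := by
  obtain ⟨G, hG, hG'⟩ := exLe_spec ha n
  have := two_mul_ncard_le hG
  rw [hG'] at this
  simpa using this

lemma ncard_add_compl {n : ℕ} (G : SimpleGraph (Fin n)) :
    G.edgeSet.ncard + Gᶜ.edgeSet.ncard = n.choose 2 := by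
  classical
  have hd : Disjoint G.edgeSet Gᶜ.edgeSet := by
    rw [disjoint_edgeSet]; exact disjoint_compl_right
  rw [← Set.ncard_union_eq hd, ← edgeSet_sup, sup_compl_eq_top, ← coe_edgeFinset,
    Set.ncard_coe_finset, card_edgeFinset_top_eq_card_choose_two, Fintype.card_fin]

lemma exLe_lower {a N : ℕ} (hN : N < ramseyNum (a + 1) (a + 1)) :
    N.choose 2 ≤ 2 * exLe a N := by
  obtain ⟨G, h₁, h₂⟩ := exists_ramsey_graph hN
  have e1 := le_exLe (eqLe_of_ramsey h₁ h₂)
  have e2 := le_exLe (G := Gᶜ) (a := a) (eqLe_of_ramsey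
    (fun S h => h₂ S (by rwa [isNClique_compl] at h))
    (fun S h => h₁ S (by rwa [isNIndepSet_compl] at h)))
  have := ncard_add_compl G
  simp only [Fintype.card_fin] at e1 e2
  omega

lemma one_le_ramseyNum {s t : ℕ} (hs : 1 ≤ s) (ht : 1 ≤ t) : 1 ≤ ramseyNum s t := by
  refine lt_ramseyNum (N := 0) ⊥ (fun S h => ?_) (fun S h => ?_)
  · have h1 := h.card_eq
    have h2 := Finset.card_le_univ S
    simp at h2
    subst h2
    simp at h1
    omega
  · have h1 := h.card_eq
    have h2 := Finset.card_le_univ S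
    simp at h2
    subst h2
    simp at h1
    omega

lemma two_le_ramseyNum {s t : ℕ} (hs : 2 ≤ s) (ht : 2 ≤ t) : 2 ≤ ramseyNum s t := by
  refine lt_ramseyNum (N := 1) ⊥ (fun S h => ?_) (fun S h => ?_)
  · have h1 := h.card_eq
    have h2 := Finset.card_le_univ S
    simp only [Fintype.card_fin] at h2
    omega
  · have h1 := h.card_eq
    have h2 := Finset.card_le_univ S
    simp only [Fintype.card_fin] at h2
    omega

theorem main_limit (a : ℕ) (ha : 1 ≤ a) :
    ∃ c : ℝ, Tendsto (fun n : ℕ => (exEq n a : ℝ) / n) atTop (𝓝 c) ∧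
      (∀ n : ℕ, (exEq n a : ℝ) ≤ c * n) ∧
      ((ramseyNum (a + 1) (a + 1) : ℝ) - 2) / 4 ≤ c ∧
      c ≤ ((ramseyNum a (a + 1) : ℝ) - 1) / 2 := by
  have hsub : Subadditive (fun n => -(exLe a n : ℝ)) := by
    intro m n
    have : ((exLe a m + exLe a n : ℕ) : ℝ) ≤ exLe a (m + n) := by
      exact_mod_cast exLe_superadd ha m n
    push_cast at this
    linarith
  have hR1 : 1 ≤ ramseyNum a (a + 1) := one_le_ramseyNum ha (by omega)
  have hup : ∀ n : ℕ, (exLe a n : ℝ) / n ≤ ((ramseyNum a (a + 1) : ℝ) - 1) / 2 := by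
    intro n
    have hR : (1 : ℝ) ≤ ramseyNum a (a + 1) := by exact_mod_cast hR1
    rcases Nat.eq_zero_or_pos n with rfl | hn
    · simp only [CharP.cast_eq_zero, div_zero]; linarith
    · have h1 : ((2 * exLe a n : ℕ) : ℝ) ≤ ((n * (ramseyNum a (a + 1) - 1) : ℕ) : ℝ) := by
        exact_mod_cast exLe_upper ha n
      push_cast [Nat.cast_sub hR1] at h1
      have hn' : (0 : ℝ) < n := by exact_mod_cast hn
      rw [div_le_div_iff₀ hn' (by norm_num)]
      linarith
  have hbdd : BddBelow (Set.range fun n : ℕ => -(exLe a n : ℝ) / n) := by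
    refine ⟨-(((ramseyNum a (a + 1) : ℝ) - 1) / 2), ?_⟩
    rintro x ⟨n, rfl⟩
    have := hup n
    simp only [neg_div]
    linarith
  have hlim := hsub.tendsto_lim hbdd
  have hlim' : Tendsto (fun n : ℕ => (exLe a n : ℝ) / n) atTop (𝓝 (-hsub.lim)) := by
    have := hlim.neg
    simpa [neg_div] using this
  have hle : ∀ n : ℕ, n ≠ 0 → (exLe a n : ℝ) / n ≤ -hsub.lim := by
    intro n hn
    have := hsub.lim_le_div hbdd hn
    simp only [neg_div] at this
    linarith
  have hle' : ∀ n : ℕ, (exLe a n : ℝ) ≤ -hsub.lim * n := by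
    intro n
    rcases Nat.eq_zero_or_pos n with rfl | hn
    · have := exLe_upper ha 0
      have h0 : exLe a 0 = 0 := by omega
      simp [h0]
    · have hn' : (0 : ℝ) < n := by exact_mod_cast hn
      have := hle n hn.ne'
      rwa [div_le_iff₀ hn'] at this
  refine ⟨-hsub.lim, ?_, ?_, ?_, ?_⟩
  · -- squeeze
    have hlow : Tendsto (fun n : ℕ => (exLe a n : ℝ) / ((n + a : ℕ) : ℝ)) atTop
        (𝓝 (-hsub.lim)) := by
      have h1 : Tendsto (fun n : ℕ => (n : ℝ) / ((n : ℝ) + a)) atTop (𝓝 1) :=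
        tendsto_natCast_div_add_atTop (a : ℝ)
      have h2 := hlim'.mul h1
      rw [mul_one] at h2
      refine h2.congr' ?_
      filter_upwards [eventually_gt_atTop 0] with n hn
      have hn' : (n : ℝ) ≠ 0 := by exact_mod_cast hn.ne'
      push_cast
      field_simp
    rw [← tendsto_add_atTop_iff_nat a]
    have hupp : Tendsto (fun n : ℕ => (exLe a (n + a) : ℝ) / ((n + a : ℕ) : ℝ)) atTop
        (𝓝 (-hsub.lim)) := (tendsto_add_atTop_iff_nat (f := fun n : ℕ => (exLe a n : ℝ) / n) a).mpr hlim'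
    refine tendsto_of_tendsto_of_tendsto_of_le_of_le hlow hupp (fun n => ?_) (fun n => ?_)
    · exact div_le_div_of_nonneg_right (Nat.cast_le.mpr (exLe_le_exEq ha n)) (Nat.cast_nonneg _)
    · exact div_le_div_of_nonneg_right (Nat.cast_le.mpr (exEq_le_exLe _ _)) (Nat.cast_nonneg _)
  · intro n
    exact le_trans (by exact_mod_cast exEq_le_exLe n a) (hle' n)
  · have h2 : 2 ≤ ramseyNum (a + 1) (a + 1) := two_le_ramseyNum (by omega) (by omega)
    obtain ⟨N, hN⟩ : ∃ N, ramseyNum (a + 1) (a + 1) = N + 1 := ⟨_, (Nat.succ_pred_eq_of_pos (by omega)).symm⟩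
    have h3 := exLe_lower (a := a) (N := N) (by omega)
    have h4 : (N.choose 2 : ℝ) ≤ 2 * exLe a N := by exact_mod_cast h3
    rw [Nat.cast_choose_two] at h4
    have h5 := hle' N
    have hN' : (0 : ℝ) < N := by exact_mod_cast (show 0 < N by omega)
    rw [hN]
    push_cast
    have : (N : ℝ) * (((N : ℝ) + 1 - 2) / 4) ≤ N * (-hsub.lim) := by nlinarith
    exact le_of_mul_le_mul_left this hN'
  · exact le_of_tendsto' hlim' hup

end Pool.Agent.P.MP_d4bf6a_co
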