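import Mathlib

/-! The integer inequality behind the induction step. -/

namespace Pool.Agent.P.MP_d4bf6a_co

/-- The potential. -/
def pot (s j y : ℤ) : ℤ := (s - max j y) ^ 2 - min j y ^ 2

lemma pot_le {s j y : ℤ} (h : j ≤ y) : pot s j y = (s - y) ^ 2 - j ^ 2 := by
  rw [pot, max_eq_right h, min_eq_left h]

lemma pot_ge {s j y : ℤ} (h : y ≤ j) : pot s j y = (s - j) ^ 2 - y ^ 2 := by
  rw [pot, max_eq_left h, min_eq_right h]

/-- The conclusion of a step. -/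
def Nxt (s R j y f i a : ℤ) : Prop :=
  ∃ t y' : ℤ, 0 ≤ t ∧ (t = 0 ∨ t ≤ i ∧ y ≠ 0) ∧ 0 ≤ y' ∧ y' ≤ R ∧ (y' = 0 ∨ y' ≤ y - a + t - i ∧ y ≠ 0) ∧
    j - a + t ≤ s ∧ ∀ W, 0 ≤ W → s + i - 2 * t ≤ W →
      pot s (j - a + t) y' ≤ f + (i ^ 2 - 2 * t ^ 2 + 2 * a * W) ∧
        -1 ≤ f + (i ^ 2 - 2 * t ^ 2 + 2 * a * W)

variable {s R j y f i a : ℤ}

lemma nxt_of (t y' : ℤ) (a0 : 0 ≤ a) (h1 : 0 ≤ t) (h2 : t = 0 ∨ t ≤ i ∧ y ≠ 0) (h3 : 0 ≤ y')
    (h4 : y' ≤ R) (h5 : y' = 0 ∨ y' ≤ y - a + t - i ∧ y ≠ 0) (h6 : j - a + t ≤ s)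
    (h7 : pot s (j - a + t) y' ≤ f + (i ^ 2 - 2 * t ^ 2 + 2 * a * (s + i - 2 * t)))
    (h8 : -1 ≤ f + (i ^ 2 - 2 * t ^ 2) ∨ 0 ≤ pot s (j - a + t) y') : Nxt s R j y f i a := by
  refine ⟨t, y', h1, h2, h3, h4, h5, h6, fun W h0 hW => ?_⟩
  have := mul_le_mul_of_nonneg_left hW a0
  have := mul_nonneg a0 h0
  refine ⟨by linarith, h8.elim (fun h => by linarith) fun h => by linarith⟩

lemma pot_nonneg (j0 : 0 ≤ j) (y0 : 0 ≤ y) (h : j + y ≤ s) : 0 ≤ pot s j y := by
  rcases le_total j y with g | g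
  · rw [pot_le g]
    nlinarith
  · rw [pot_ge g]
    nlinarith

lemma step_neg (a0 : 0 ≤ a) (aj : a ≤ j) (js : j ≤ s) (y0 : 0 < y) (yR : y ≤ R) (hR : 2 * R ≤ s)
    (hi : i ≤ 0) (h1 : pot s j y ≤ f) (h2 : -1 ≤ f) : Nxt s R j y f i a := by
  have h8 : -1 ≤ f + (i ^ 2 - 2 * 0 ^ 2) := by nlinarith [sq_nonneg i]
  rcases le_total a (-i) with g | g
  · refine nxt_of 0 y a0 le_rfl (.inl rfl) y0.le yR (.inr ⟨by linarith, y0.ne'⟩) (by linarith) ?_
      (.inl h8)
    rcases le_total j y with c | c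
    · rw [pot_le c] at h1
      rw [pot_le (by linarith)]
      nlinarith [sq_nonneg (i + a), mul_nonneg a0 (sub_nonneg.2 js)]
    rw [pot_ge c] at h1
    rcases le_total y (j - a + 0) with d | d
    · rw [pot_ge d]
      nlinarith [sq_nonneg (i + a), mul_nonneg a0 (sub_nonneg.2 aj)]
    · rw [pot_le d]
      nlinarith [sq_nonneg (i + a), mul_nonneg (show 0 ≤ a - (j - y) by linarith)
        (show 0 ≤ 2 * s - j - y by linarith), mul_nonneg (sub_nonneg.2 c)
          (show 0 ≤ j + y - a by linarith)]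
  rcases le_total j y with c | c
  · refine nxt_of 0 (y - a - i) a0 le_rfl (.inl rfl) (by linarith) (by linarith)
      (.inr ⟨by linarith, y0.ne'⟩) (by linarith) ?_ (.inl h8)
    rw [pot_le c] at h1
    rw [pot_le (by linarith)]
    nlinarith [mul_nonneg a0 (sub_nonneg.2 c), mul_nonneg (neg_nonneg.2 hi)
      (show 0 ≤ s - y by linarith)]
  rw [pot_ge c] at h1
  rcases le_total (y - a - i) 0 with d | d
  · refine nxt_of 0 0 a0 le_rfl (.inl rfl) le_rfl (by linarith) (.inl rfl) (by linarith) ?_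
      (.inl h8)
    rw [pot_ge (by linarith)]
    nlinarith [mul_nonneg a0 (sub_nonneg.2 aj), mul_nonneg (show 0 ≤ a + i - y by linarith)
      (show 0 ≤ a + i + y by linarith)]
  refine nxt_of 0 (y - a - i) a0 le_rfl (.inl rfl) d (by linarith)
    (.inr ⟨by linarith, y0.ne'⟩) (by linarith) ?_ (.inl h8)
  rcases le_total (y - a - i) (j - a + 0) with e | e
  · rw [pot_ge e]
    nlinarith [mul_nonneg a0 (show 0 ≤ j - y + i by linarith), mul_nonneg (neg_nonneg.2 hi) d]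
  · rw [pot_le e]
    nlinarith [mul_nonneg (sub_nonneg.2 c) (show 0 ≤ j + y - 2 * a - i by linarith),
      mul_nonneg (show 0 ≤ -i - (j - y) by linarith) (show 0 ≤ 2 * s - j - y by linarith)]

lemma step_one (a0 : 0 ≤ a) (aj : a ≤ j) (y0 : 0 < y) (yR : y ≤ R) (hR : 2 * R ≤ s)
    (hi : 0 < i) (c : j ≤ y) (h1 : pot s j y ≤ f) : Nxt s R j y f i a := by
  have f0 := (pot_nonneg (a0.trans aj) y0.le (by linarith)).trans h1
  rw [pot_le c] at h1
  rcases le_total i (y - j) with g | g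
  · refine nxt_of i (y - a) a0 hi.le (.inr ⟨le_rfl, y0.ne'⟩) (by linarith) (by linarith)
      (.inr ⟨by linarith, y0.ne'⟩) (by linarith) ?_
      (.inr (pot_nonneg (by linarith) (by linarith) (by linarith)))
    rw [pot_le (by linarith)]
    nlinarith [mul_nonneg a0 (show 0 ≤ y - j - i by linarith), mul_nonneg hi.le (sub_nonneg.2 aj)]
  obtain ⟨r, rfl⟩ : ∃ r, y = j + r := ⟨y - j, by ring⟩
  obtain ⟨z, rfl⟩ : ∃ z, i = r + z := ⟨i - r, by ring⟩
  have r0 : 0 ≤ r := by linarith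
  have z0 : 0 ≤ z := by linarith
  rcases le_total (j + r - a) z with d | d
  · refine nxt_of r 0 a0 r0 (.inr ⟨by linarith, y0.ne'⟩) le_rfl (by linarith) (.inl rfl)
      (by linarith) ?_ (.inr (pot_nonneg (by linarith) le_rfl (by linarith)))
    rw [pot_ge (by linarith)]
    nlinarith [mul_nonneg r0 z0, mul_nonneg a0 z0, mul_nonneg r0 (sub_nonneg.2 aj),
      mul_nonneg (sub_nonneg.2 d) (show 0 ≤ z + (j + r - a) by linarith)]
  by_cases e : j ≤ z ∨ z ≤ r
  · refine nxt_of r (j + r - a - z) a0 r0 (.inr ⟨by linarith, y0.ne'⟩) (by linarith) (by linarith)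
      (.inr ⟨by linarith, y0.ne'⟩) (by linarith) ?_
      (.inr (pot_nonneg (by linarith) (by linarith) (by linarith)))
    rw [pot_ge (by linarith)]
    rcases e with e | e
    · nlinarith [mul_nonneg z0 (sub_nonneg.2 e), mul_nonneg a0 z0, mul_nonneg r0 (sub_nonneg.2 aj)]
    · nlinarith [mul_nonneg (sub_nonneg.2 e) (sub_nonneg.2 aj), mul_nonneg a0 z0, sq_nonneg z]
  obtain ⟨e1, e2⟩ : z < j ∧ r < z := by omega
  obtain ⟨t, ht⟩ : ∃ t, 2 * t = r + z ∨ 2 * t = r + z + 1 := ⟨(r + z + 1) / 2, by omega⟩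
  refine nxt_of t (j + r - a + t - (r + z)) a0 (by omega) (.inr ⟨by omega, y0.ne'⟩) (by omega)
    (by omega) (.inr ⟨le_rfl, y0.ne'⟩) (by omega) ?_ (.inl ?_)
  · rw [pot_ge (by linarith)]
    have k1 := mul_nonneg (show 0 ≤ s - 2 * (j + r) by linarith) (show 0 ≤ t - r by omega)
    have k2 := mul_nonneg r0 (sub_nonneg.2 e2.le)
    have k3 := mul_nonneg a0 (show 0 ≤ z - 1 by omega)
    rcases ht with ht | ht
    · obtain rfl : z = 2 * t - r := by linarith
      nlinarith [sq_nonneg t]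
    · obtain rfl : z = 2 * t - r - 1 := by linarith
      nlinarith [sq_nonneg (2 * t - 1)]
  · rcases ht with ht | ht
    · rw [← ht]
      nlinarith [sq_nonneg t]
    · obtain e : r + z = 2 * t - 1 := by linarith
      rw [e]
      nlinarith [sq_nonneg (t - 1)]

lemma step_two (a0 : 0 ≤ a) (aj : a ≤ j) (js : j ≤ s) (y0 : 0 < y) (yR : y ≤ R)
    (hi : 0 < i) (c : y ≤ j) (h1 : pot s j y ≤ f) (h2 : -1 ≤ f) : Nxt s R j y f i a := by
  have f0 := fun h => (pot_nonneg (a0.trans aj) y0.le h).trans h1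
  rw [pot_ge c] at h1
  rcases le_or_gt y (i + a) with g | g
  · refine nxt_of 0 0 a0 le_rfl (.inl rfl) le_rfl (by linarith) (.inl rfl) (by linarith) ?_
      (.inr (pot_nonneg (by linarith) le_rfl (by linarith)))
    rw [pot_ge (by linarith)]
    nlinarith [mul_nonneg a0 (sub_nonneg.2 aj), mul_nonneg (sub_nonneg.2 g)
      (show 0 ≤ i + a + y by linarith)]
  have k1 := mul_nonneg a0 (sub_nonneg.2 c)
  have k2 := mul_nonneg a0 hi.le
  rcases le_or_gt (j + y) s with d | d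
  · obtain ⟨t, ht⟩ : ∃ t, 2 * t = i ∨ 2 * t = i + 1 := ⟨(i + 1) / 2, by omega⟩
    have k3 := mul_nonneg (show 0 ≤ t by omega) (sub_nonneg.2 d)
    have := f0 d
    refine nxt_of t (y - a + t - i) a0 (by omega) (.inr ⟨by omega, y0.ne'⟩) (by omega)
      (by omega) (.inr ⟨le_rfl, y0.ne'⟩) (by omega) ?_ (.inl ?_)
    · rw [pot_ge (by linarith)]
      rcases ht with ht | ht
      · subst ht
        nlinarith [sq_nonneg t]
      · obtain rfl : i = 2 * t - 1 := by linarith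
        nlinarith [sq_nonneg (t - 1)]
    · rcases ht with ht | ht
      · subst ht
        nlinarith [sq_nonneg t]
      · obtain rfl : i = 2 * t - 1 := by linarith
        nlinarith [sq_nonneg (t - 1)]
  obtain ⟨t, ht⟩ : ∃ t, 2 * t = i ∨ 2 * t = i - 1 := ⟨i / 2, by omega⟩
  rcases le_total (s - j + a) t with e | e
  · have k3 : 0 ≤ i ^ 2 - 2 * (s - j + a) ^ 2 := by
      nlinarith [mul_nonneg (show 0 ≤ i - 2 * (s - j + a) by omega)
        (show 0 ≤ i + 2 * (s - j + a) by omega), sq_nonneg (s - j + a)]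
    refine nxt_of (s - j + a) (y - a + (s - j + a) - i) a0 (by omega) (.inr ⟨by omega, y0.ne'⟩)
      (by omega) (by omega) (.inr ⟨le_rfl, y0.ne'⟩) (by omega) ?_ (.inl (by linarith))
    rw [pot_ge (by omega)]
    nlinarith [mul_nonneg a0 (show 0 ≤ s + i - 2 * (s - j + a) by omega),
      show 1 ≤ y - a + (s - j + a) - i by omega]
  have t0 : 0 ≤ t := by omega
  refine nxt_of t (y - a + t - i) a0 t0 (.inr ⟨by omega, y0.ne'⟩) (by omega)
    (by omega) (.inr ⟨le_rfl, y0.ne'⟩) (by omega) ?_ (.inl ?_)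
  · rw [pot_ge (by linarith)]
    have k3 := mul_nonneg (show 0 ≤ j + y - s - 1 by omega)
      (show 0 ≤ 2 * y - 2 * t - 1 - (j + y - s) by omega)
    rcases ht with ht | ht
    · subst ht
      nlinarith [sq_nonneg t]
    · obtain rfl : i = 2 * t + 1 := by linarith
      nlinarith [sq_nonneg t]
  · rcases ht with ht | ht
    · subst ht
      nlinarith [sq_nonneg t]
    · obtain rfl : i = 2 * t + 1 := by linarith
      nlinarith [sq_nonneg t]

lemma step_arith (a0 : 0 ≤ a) (aj : a ≤ j) (js : j ≤ s) (y0 : 0 ≤ y) (yR : y ≤ R) (hR : 2 * R ≤ s)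
    (h1 : pot s j y ≤ f) (h2 : -1 ≤ f) : Nxt s R j y f i a := by
  rcases y0.eq_or_lt with rfl | y0
  · refine nxt_of 0 0 a0 le_rfl (.inl rfl) le_rfl yR (.inl rfl) (by linarith) ?_
      (.inr (pot_nonneg (by linarith) le_rfl (by linarith)))
    rw [pot_ge (by linarith)] at h1 ⊢
    nlinarith [mul_nonneg a0 (sub_nonneg.2 aj), sq_nonneg (i + a)]
  rcases le_or_gt i 0 with hi | hi
  · exact step_neg a0 aj js y0 yR hR hi h1 h2
  rcases le_total j y with c | c
  · exact step_one a0 aj y0 yR hR hi c h1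
  · exact step_two a0 aj js y0 yR hi c h1 h2

end Pool.Agent.P.MP_d4bf6a_co
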