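import Pool.Agent.P.MP_d4bf6a_co.BtA

/-! Clique-free graphs with bounded independence number just beyond the Turan range. -/

namespace Pool.Agent.P.MP_d4bf6a_co

open Finset

variable {α : Type} [DecidableEq α] (G : SimpleGraph α) [DecidableRel G.Adj]

/-- The indicator of non-adjacency. -/
def na (x y : α) : ℤ := if G.Adj x y then 0 else 1

/-- The number of non-adjacent pairs in `A × B`. -/
def NE (A B : Finset α) : ℤ := ∑ x ∈ A, ∑ y ∈ B, na G x y

/-- Independent sets. -/
def Ind (I : Finset α) : Prop := ∀ x ∈ I, ∀ y ∈ I, ¬ G.Adj x y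

variable {G}

omit [DecidableEq α] in
lemma na_nonneg (x y : α) : 0 ≤ na G x y := by
  unfold na
  split_ifs <;> norm_num

omit [DecidableEq α] in
lemma na_le (x y : α) : na G x y ≤ 1 := by
  unfold na
  split_ifs <;> norm_num

omit [DecidableEq α] in
lemma NE_comm (A B : Finset α) : NE G A B = NE G B A := by
  rw [NE, sum_comm]
  exact sum_congr rfl fun x _ => sum_congr rfl fun y _ => by simp only [na, G.adj_comm]

lemma NE_left {A B : Finset α} (h : Disjoint A B) (C : Finset α) :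
    NE G (A ∪ B) C = NE G A C + NE G B C := sum_union h

lemma NE_sq {A B : Finset α} (h : Disjoint A B) :
    NE G (A ∪ B) (A ∪ B) = NE G A A + 2 * NE G A B + NE G B B := by
  rw [NE_left h, NE_comm A, NE_comm B, NE_left h, NE_left h, NE_comm B A]
  ring

omit [DecidableEq α] in
lemma NE_le (A B : Finset α) : NE G A B ≤ A.card * B.card := by
  have : NE G A B ≤ ∑ _x ∈ A, ∑ _y ∈ B, (1 : ℤ) :=
    sum_le_sum fun x _ => sum_le_sum fun y _ => na_le x y
  simpa using this

omit [DecidableEq α] in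
lemma sum_na (x : α) (B : Finset α) :
    ∑ y ∈ B, na G x y = (B.filter fun y => ¬ G.Adj x y).card := by
  rw [card_filter]
  push_cast
  exact sum_congr rfl fun y _ => by simp only [na, ite_not]

omit [DecidableRel G.Adj] in
/-- The lemma of Hajnal. -/
lemma hajnal {H : Finset α} {m : ℕ} (h1 : ∀ I ⊆ H, Ind G I → I.card ≤ m)
    (h2 : ∀ x ∈ H, ∃ S ⊆ H, Ind G S ∧ S.card = m ∧ x ∉ S) (n : ℕ) :
    ∀ A B : Finset α, A.card = n → A ⊆ H → B ⊆ H → Ind G A →
      (∀ b ∈ B, ∃ S ⊆ H, Ind G S ∧ S.card = m ∧ b ∈ S ∧ A ⊆ S) → 2 * m ≤ A.card + B.card →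
        ∃ B ⊆ H, (∀ b ∈ B, ∃ S ⊆ H, Ind G S ∧ S.card = m ∧ b ∈ S) ∧ 2 * m ≤ B.card := by
  induction n using Nat.strong_induction_on with
  | _ n ih =>
    intro A B hn hA hB hI hS hc
    rcases A.eq_empty_or_nonempty with rfl | ⟨x, hx⟩
    · exact ⟨B, hB, fun b hb => let ⟨S, a1, a2, a3, a4, _⟩ := hS b hb; ⟨S, a1, a2, a3, a4⟩,
        by simpa using hc⟩
    obtain ⟨S, s1, s2, s3, s4⟩ := h2 x (hA hx)
    have k1 := h1 (S ∩ B ∪ A) (union_subset (inter_subset_left.trans s1) hA) fun u hu v hv => by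
      rcases mem_union.1 hu with hu | hu <;> rcases mem_union.1 hv with hv | hv
      · exact s2 u (mem_inter.1 hu).1 v (mem_inter.1 hv).1
      · obtain ⟨T, -, t2, -, t4, t5⟩ := hS u (mem_inter.1 hu).2
        exact t2 u t4 v (t5 hv)
      · obtain ⟨T, -, t2, -, t4, t5⟩ := hS v (mem_inter.1 hv).2
        exact t2 u (t5 hu) v t4
      · exact hI u hu v hv
    have k2 := card_union_add_card_inter (S ∩ B) A
    have k3 := card_union_add_card_inter B S
    have k4 : (S ∩ B ∩ A).card ≤ (A ∩ S).card := card_le_card fun u hu => by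
      simp only [mem_inter] at hu ⊢
      exact ⟨hu.2, hu.1.1⟩
    rw [inter_comm B S] at k3
    refine ih _ (hn ▸ card_lt_card ⟨inter_subset_left, fun h => s4 (mem_inter.1 (h hx)).2⟩)
      (A ∩ S) (B ∪ S) rfl (inter_subset_left.trans hA) (union_subset hB s1)
      (fun u hu v hv => hI u (mem_inter.1 hu).1 v (mem_inter.1 hv).1) (fun b hb => ?_) (by omega)
    rcases mem_union.1 hb with hb | hb
    · obtain ⟨T, t1, t2, t3, t4, t5⟩ := hS b hb
      exact ⟨T, t1, t2, t3, t4, inter_subset_left.trans t5⟩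
    · exact ⟨S, s1, s2, s3, hb, inter_subset_right⟩

/-- A small set with few edges and covering number `t`. -/
lemma ex_crit {U : Finset α} {t : ℕ} (hU : ∀ I ⊆ U, Ind G I → I.card + t ≤ U.card) :
    ∃ H ⊆ U, (∀ I ⊆ H, Ind G I → I.card + t ≤ H.card) ∧ H.card ≤ 2 * t ∧
      (H.card : ℤ) ^ 2 - 2 * t ^ 2 ≤ NE G H H := by
  classical
  obtain ⟨H, h1, h2⟩ := exists_min_image
    (U.powerset.filter fun H => ∀ I ⊆ H, Ind G I → I.card + t ≤ H.card) card
    ⟨U, mem_filter.2 ⟨mem_powerset_self U, hU⟩⟩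
  obtain ⟨h1, h3⟩ := mem_filter.1 h1
  rw [mem_powerset] at h1
  have ht : t ≤ H.card := by simpa using h3 ∅ (empty_subset _) (by simp [Ind])
  obtain ⟨m, hm⟩ := Nat.exists_eq_add_of_le ht
  have k1 : ∀ I ⊆ H, Ind G I → I.card ≤ m := fun I a b => by
    have := h3 I a b
    omega
  have k2 : ∀ x ∈ H, ∃ S ⊆ H, Ind G S ∧ S.card = m ∧ x ∉ S := fun x hx => by
    by_contra hn
    have e := card_erase_add_one hx
    have := h2 (H.erase x) (mem_filter.2 ⟨mem_powerset.2 ((erase_subset _ _).trans h1),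
      fun I a b => by
        have c := k1 I (a.trans (erase_subset _ _)) b
        have : I.card ≠ m := fun d =>
          hn ⟨I, a.trans (erase_subset _ _), b, d, fun f => notMem_erase x H (a f)⟩
        omega⟩)
    omega
  obtain ⟨B, b1, b2, b3⟩ : ∃ B ⊆ H, (∀ b ∈ B, ∃ S ⊆ H, Ind G S ∧ S.card = m ∧ b ∈ S) ∧
      2 * m ≤ B.card := by
    rcases H.eq_empty_or_nonempty with rfl | ⟨x, hx⟩
    · exact ⟨∅, Subset.rfl, by simp, by simp at hm ⊢; omega⟩
    obtain ⟨S, s1, s2, s3, -⟩ := k2 x hx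
    exact hajnal k1 k2 _ S S rfl s1 s1 s2 (fun b hb => ⟨S, s1, s2, s3, hb, Subset.rfl⟩) (by omega)
  have k3 := card_le_card b1
  refine ⟨H, h1, h3, by omega, ?_⟩
  have k4 : ∑ _x ∈ B, (m : ℤ) ≤ NE G H H := by
    refine le_trans (sum_le_sum fun b hb => ?_) (sum_le_sum_of_subset_of_nonneg b1
      fun x _ _ => sum_nonneg fun y _ => na_nonneg x y)
    obtain ⟨S, s1, s2, s3, s4⟩ := b2 b hb
    rw [sum_na, ← s3]
    exact Int.ofNat_le.2 (card_le_card fun y hy => mem_filter.2 ⟨s1 hy, s2 b s4 y hy⟩)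
  rw [sum_const, nsmul_eq_mul] at k4
  have k5 : (2 * m : ℤ) ≤ B.card := by exact_mod_cast b3
  rw [hm]
  push_cast
  nlinarith [mul_le_mul_of_nonneg_right k5 (Int.natCast_nonneg m), sq_nonneg ((t : ℤ) - m)]

/-- A clique that cannot be extended by an edge of `H` misses many vertices of `H`. -/
lemma miss {H Q : Finset α} {t k : ℕ} (hH : ∀ I ⊆ H, Ind G I → I.card + t ≤ H.card)
    (hQ : G.IsNClique k Q) (h : ∀ x ∈ H, ∀ y ∈ H, ¬ G.IsNClique (k + 2) (insert x (insert y Q))) :
    (t : ℤ) ≤ NE G Q H := by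
  have k1 := hH (H.filter fun x => ∀ z ∈ Q, G.Adj x z) (filter_subset _ _) fun x hx y hy hxy => by
    obtain ⟨x1, x2⟩ := mem_filter.1 hx
    obtain ⟨y1, y2⟩ := mem_filter.1 hy
    exact h x x1 y y1 ((hQ.insert y2).insert fun b hb => by
      rcases mem_insert.1 hb with rfl | hb
      exacts [hxy, x2 b hb])
  have k2 := card_filter_add_card_filter_not (s := H) fun x => ∀ z ∈ Q, G.Adj x z
  have k3 : ∑ _x ∈ H.filter fun x => ¬ ∀ z ∈ Q, G.Adj x z, (1 : ℤ) ≤ NE G H Q := by
    refine le_trans (sum_le_sum fun x hx => ?_) (sum_le_sum_of_subset_of_nonneg (filter_subset _ _)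
      fun x _ _ => sum_nonneg fun y _ => na_nonneg x y)
    have := (mem_filter.1 hx).2
    push Not at this
    obtain ⟨z, z1, z2⟩ := this
    refine le_trans ?_ (single_le_sum (fun y _ => na_nonneg x y) z1)
    rw [na, if_neg z2]
  rw [sum_const, nsmul_eq_mul, mul_one, NE_comm] at k3
  omega

theorem core {s R : ℤ} (hR : 2 * R ≤ s) (k : ℕ) : ∀ (V : Finset α) (w : α → ℤ) (j y f : ℤ),
    (∀ x, 0 ≤ w x) → (∀ Q ⊆ V, ¬ G.IsNClique (k + 1) Q) →
    (y = 0 ∨ ∀ I ⊆ V, Ind G I → (I.card : ℤ) ≤ s) →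
    (∀ Q ⊆ V, G.IsNClique k Q → j ≤ ∑ x ∈ Q, w x) → 0 ≤ j → j ≤ s → 0 ≤ y → y ≤ R →
    (y = 0 ∨ y ≤ j + V.card - k * s) → pot s j y ≤ f → -1 ≤ f →
    2 * s * V.card - k * s ^ 2 + s ^ 2 - f ≤ NE G V V + 2 * ∑ x ∈ V, w x := by
  induction k with
  | zero =>
    intro V w j y f _ hc _ hj j0 _ y0 _ hy h1 _
    obtain rfl : V = ∅ := eq_empty_of_forall_notMem fun x hx =>
      hc {x} (singleton_subset_iff.2 hx) (SimpleGraph.isNClique_singleton.2 rfl)
    have := hj ∅ Subset.rfl (SimpleGraph.isNClique_empty.2 rfl)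
    simp only [sum_empty, card_empty, Nat.cast_zero, NE] at this hy ⊢
    obtain rfl : j = 0 := by omega
    obtain rfl : y = 0 := by omega
    rw [pot_le le_rfl] at h1
    linarith
  | succ k ih =>
    intro V w j y f w0 hc hI hj j0 js y0 yR hy h1 h2
    have ks : 0 ≤ (k : ℤ) * s := mul_nonneg (Int.natCast_nonneg k) (j0.trans js)
    push_cast at hy ⊢
    rcases V.eq_empty_or_nonempty with rfl | hV
    · simp only [sum_empty, card_empty, Nat.cast_zero, NE] at hy ⊢
      obtain rfl : y = 0 := hy.elim id fun h => by linarith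
      rw [pot_ge j0] at h1
      nlinarith [sq_nonneg (s - j), mul_nonneg ks (j0.trans js)]
    obtain ⟨v, hv, hmin⟩ := exists_min_image V (fun x => ∑ z ∈ V, na G x z + w x) hV
    set U := V.filter fun z => ¬ G.Adj v z with hU
    set N := V.filter fun z => G.Adj v z with hN
    have hc1 : (N.card : ℤ) + U.card = V.card := by
      exact_mod_cast card_filter_add_card_filter_not (s := V) fun z => G.Adj v z
    obtain ⟨t, y', t0, t1, y1, y2, y3, j1, hW⟩ := step_arith (i := U.card - s)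
      (le_min (w0 v) j0) (min_le_right _ _) js y0 yR hR h1 h2
    lift t to ℕ using t0
    obtain ⟨H, hH, g1, g2, g3⟩ := ex_crit (G := G) (U := U) (t := t) fun I a b => by
      rcases t1 with t1 | ⟨t1, t2⟩
      · have := card_le_card a
        omega
      · have := hI.resolve_left t2 I (a.trans (filter_subset _ _)) b
        omega
    have hc2 : ((U \ H).card : ℤ) + H.card = U.card := by
      exact_mod_cast card_sdiff_add_card_eq_card hH
    obtain ⟨p1, p2⟩ := hW (U \ H).card (Int.natCast_nonneg _) (by omega)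
    have NV : N ⊆ V := filter_subset _ _
    have HV : H ⊆ V := hH.trans (filter_subset _ _)
    have key := ih N (fun z => w z + ∑ x ∈ H, na G z x) _ y' _
      (fun z => add_nonneg (w0 z) (sum_nonneg fun x _ => na_nonneg z x))
      (fun Q a b => hc (insert v Q) (insert_subset hv (a.trans NV))
        (b.insert fun z hz => (mem_filter.1 (a hz)).2))
      (y3.imp_right fun h I a => hI.resolve_left h.2 I (a.trans NV))
      (fun Q a b => by
        have e1 := hj (insert v Q) (insert_subset hv (a.trans NV))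
          (b.insert fun z hz => (mem_filter.1 (a hz)).2)
        rw [sum_insert fun h => G.irrefl (mem_filter.1 (a h)).2] at e1
        have e2 := miss g1 b fun x hx z hz =>
          hc _ (insert_subset (HV hx) (insert_subset (HV hz) (a.trans NV)))
        have e3 := sum_nonneg fun x (_ : x ∈ Q) => w0 x
        rw [sum_add_distrib]
        change _ ≤ _ + NE G Q H
        omega)
      (by omega) j1 y1 y2 (y3.imp_right fun h => by have := hy.resolve_left h.2; linarith [h.1])
      p1 p2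
    rw [sum_add_distrib] at key
    change _ ≤ _ + 2 * (_ + NE G N H) at key
    have d1 : Disjoint N H := (disjoint_filter_filter_not V V _).mono_right hH
    have d2 : Disjoint (N ∪ H) (U \ H) := disjoint_union_left.2
      ⟨(disjoint_filter_filter_not V V _).mono_right sdiff_subset, disjoint_sdiff⟩
    have e0 : N ∪ H ∪ U \ H = V := by
      rw [union_assoc, union_sdiff_of_subset hH, filter_union_filter_not_eq]
    have e1 := NE_sq (G := G) d2
    have e2 := NE_left (G := G) d2 (U \ H)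
    have e3 : ∑ x ∈ N ∪ H ∪ U \ H, w x = _ := sum_union d2
    rw [e0] at e1 e2 e3
    rw [NE_sq d1] at e1
    rw [sum_union d1] at e3
    have e4 := NE_le (G := G) (U \ H) (U \ H)
    have e5 : ∑ _x ∈ U \ H, ((U.card : ℤ) + min (w v) j) ≤ NE G (U \ H) V + ∑ x ∈ U \ H, w x := by
      rw [NE, ← sum_add_distrib]
      refine sum_le_sum fun x hx => le_trans ?_ (hmin x (filter_subset _ _ (sdiff_subset hx)))
      rw [sum_na]
      exact add_le_add le_rfl (min_le_left _ _)
    rw [sum_const, nsmul_eq_mul, NE_comm] at e5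
    have e6 := sum_nonneg fun x (_ : x ∈ H) => w0 x
    rw [← hc1, ← hc2] at *
    nlinarith

end Pool.Agent.P.MP_d4bf6a_co
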