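import Pool.Agent.P.MP_d4bf6a_co.Basic
import Pool.Agent.P.MP_d4bf6a_co.BtB

/-! The exact value for `a ^ 2 ≤ n ≤ a ^ 2 + a / 2`. -/

namespace Pool.Agent.P.MP_d4bf6a_co

open Finset

section

variable {α : Type} [DecidableEq α] [Fintype α] {G : SimpleGraph α} [DecidableRel G.Adj]

omit [DecidableEq α] in
lemma NE_univ : NE G univ univ + 2 * G.edgeSet.ncard = (Fintype.card α : ℤ) ^ 2 := by
  have h1 : (2 * G.edgeSet.ncard : ℤ) = ∑ v, (G.degree v : ℤ) := by
    rw [← G.coe_edgeFinset, Set.ncard_coe_finset]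
    exact_mod_cast G.sum_degrees_eq_twice_card_edges.symm
  have h2 : ∀ v, ∑ y, na G v y + G.degree v = (Fintype.card α : ℤ) := fun v => by
    rw [sum_na, ← G.card_neighborFinset_eq_degree, G.neighborFinset_eq_filter, add_comm]
    exact_mod_cast card_filter_add_card_filter_not (s := univ) fun y => G.Adj v y
  rw [h1, NE, ← sum_add_distrib, sum_congr rfl fun v _ => h2 v]
  simp [sq]

lemma upper {a r : ℕ} (ha : 3 ≤ a) (hr : 2 * r ≤ a) (hn : Fintype.card α = a ^ 2 + r)
    (h : EqLe G a) : (a : ℤ) ^ 3 + 4 * a * r - r ^ 2 ≤ NE G univ univ := by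
  have hc : ∀ Q, ¬ G.IsNClique (a + 1) Q := fun Q b => by
    have := h Q (isEquidistant_of_clique b.isClique)
    rw [b.card_eq] at this
    omega
  have ha' : (3 : ℤ) ≤ a := by exact_mod_cast ha
  have hr' : 2 * (r : ℤ) ≤ a := by exact_mod_cast hr
  have r0 := Int.natCast_nonneg r
  have hn' : ((univ : Finset α).card : ℤ) = a ^ 2 + r := by exact_mod_cast hn
  by_cases hd : ∀ x y, x ≠ y → ¬ G.Adj x y → ∃ z, G.Adj x z ∧ G.Adj y z
  · have := core (G := G) hr' a univ (fun _ => 0) 0 r _ (fun _ => le_rfl) (fun Q _ => hc Q)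
      (.inr fun I _ b => Int.ofNat_le.2 (h I ⟨2, one_le_two, fun x hx y hy e => by
        obtain ⟨z, z1, z2⟩ := hd x y e (b x hx y hy)
        rw [Nat.cast_ofNat, SimpleGraph.edist_eq_two_iff]
        exact ⟨e, b x hx y hy, z, z1, z2⟩⟩))
      (fun _ _ _ => by simp) le_rfl (by linarith) r0 le_rfl (.inr (by rw [hn']; nlinarith)) le_rfl
      (by rw [pot_le r0]; nlinarith [sq_nonneg ((a : ℤ) - r)])
    rw [pot_le r0, hn'] at this
    simp only [sum_const_zero] at this
    nlinarith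
  push Not at hd
  obtain ⟨x, y, e1, e2, e3⟩ := hd
  have k1 := core (G := G) (s := a) (R := 0) (by linarith) a (univ \ {x, y}) (fun _ => 0) 0 0 _
    (fun _ => le_rfl) (fun Q _ => hc Q) (.inl rfl) (fun _ _ _ => by simp) le_rfl (by linarith)
    le_rfl le_rfl (.inl rfl) le_rfl (by rw [pot_le le_rfl]; nlinarith)
  have k2 : (((univ : Finset α) \ {x, y}).card : ℤ) + 2 = a ^ 2 + r := by
    rw [← hn', ← card_sdiff_add_card_eq_card (subset_univ {x, y}), card_pair e1]
    simp
  have d : Disjoint ((univ : Finset α) \ {x, y}) {x, y} := sdiff_disjoint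
  have k3 := NE_sq (G := G) d
  have k4 := NE_left (G := G) d {x, y}
  have k5 := NE_le (G := G) {x, y} {x, y}
  rw [sdiff_union_of_subset (subset_univ _)] at k3 k4
  have k6 : ∑ z : α, (1 + na G x z * na G y z) ≤ NE G univ {x, y} := sum_le_sum fun z _ => by
    rw [sum_pair e1]
    simp only [na, G.adj_comm z]
    have := e3 z
    split_ifs <;> simp_all
  have k7 : ∑ z ∈ {x, y}, na G x z * na G y z ≤ ∑ z : α, na G x z * na G y z :=
    sum_le_sum_of_subset_of_nonneg (subset_univ _) fun z _ _ =>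
      mul_nonneg (na_nonneg _ _) (na_nonneg _ _)
  rw [sum_pair e1] at k7
  simp only [na, G.irrefl, e2, G.adj_comm y x, if_false] at k7
  rw [sum_add_distrib, sum_const, nsmul_eq_mul, hn'] at k6
  rw [card_pair e1] at k5
  rw [pot_le le_rfl, eq_sub_of_add_eq k2] at k1
  simp only [sum_const_zero] at k1
  simp only [na] at k6
  push_cast at k5
  nlinarith [sq_nonneg ((a : ℤ) - r - 1)]

end

/-- The pattern: a pentagon joined to a complete graph. -/
def pat (m : ℕ) : Fin 5 ⊕ Fin m → Fin 5 ⊕ Fin m → Prop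
  | .inl i, .inl j => j = i + 1 ∨ i = j + 1
  | .inr i, .inr j => i ≠ j
  | _, _ => True

instance (m : ℕ) : DecidableRel (pat m) := fun x y => by
  cases x <;> cases y <;> unfold pat <;> infer_instance

/-- The indicator of non-adjacency in the pattern. -/
def pn (m : ℕ) (c d : Fin 5 ⊕ Fin m) : ℤ := if pat m c d then 0 else 1

/-- The sizes of the classes. -/
def sz (a r m : ℕ) : Fin 5 ⊕ Fin m → ℕ
  | .inl i => ![r, r, a - r, a - r, r] i
  | .inr _ => a

/-- The blow-up of the pattern. -/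
def blow (a r m : ℕ) : SimpleGraph (Σ c, Fin (sz a r m c)) where
  Adj x y := pat m x.1 y.1
  symm := ⟨fun ⟨x, _⟩ ⟨y, _⟩ h => by
    cases x <;> cases y <;> simp only [pat] at h ⊢
    exacts [h.symm, h.symm]⟩
  loopless := ⟨fun ⟨x, _⟩ h => by
    rcases x with x | x
    · revert x
      simp [pat]
    · exact h rfl⟩

instance (a r m : ℕ) : DecidableRel (blow a r m).Adj := fun x y =>
  inferInstanceAs (Decidable (pat m x.1 y.1))

lemma blow_card {r m : ℕ} (hr : r ≤ m + 2) :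
    Fintype.card (Σ c, Fin (sz (m + 2) r m c)) = (m + 2) ^ 2 + r := by
  obtain ⟨b, hb⟩ := Nat.exists_eq_add_of_le hr
  have : m + 2 - r = b := by omega
  simp [Fintype.card_sigma, sz, Fin.sum_univ_five, this]
  nlinarith

lemma blow_NE {r m : ℕ} (hr : r ≤ m + 2) : NE (blow (m + 2) r m) univ univ =
    ((m + 2 : ℕ) : ℤ) ^ 3 + 4 * (m + 2 : ℕ) * r - r ^ 2 := by
  have h1 : NE (blow (m + 2) r m) univ univ = ∑ c, (sz (m + 2) r m c : ℤ) *
      ∑ d, (sz (m + 2) r m d : ℤ) * pn m c d := by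
    have h0 : ∀ x y, na (blow (m + 2) r m) x y = pn m x.1 y.1 := fun _ _ => rfl
    simp only [NE, h0, Fintype.sum_sigma, sum_const, card_univ, Fintype.card_fin, nsmul_eq_mul]
  rw [h1]
  simp [sz, pn, pat, Fin.sum_univ_five, Nat.cast_sub hr]
  ring

lemma blow_eqLe {r m : ℕ} (hr : 2 * r ≤ m + 2) : EqLe (blow (m + 2) r m) (m + 2) := by
  refine eqLe_of_ramsey (fun S h => ?_) fun S h => ?_
  · have h1 : Set.InjOn Sigma.fst (S : Set (Σ c, Fin (sz (m + 2) r m c))) := fun x hx y hy e => by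
      by_contra g
      have : pat m x.1 y.1 := h.isClique hx hy g
      rw [← e] at this
      exact (blow (m + 2) r m).irrefl this
    have h2 := card_toLeft_add_card_toRight (u := S.image Sigma.fst)
    rw [card_image_of_injOn h1, h.card_eq] at h2
    have h3 : (S.image Sigma.fst).toRight.card ≤ m := by
      simpa using card_le_univ (S.image Sigma.fst).toRight
    have h4 : ∀ T : Finset (Fin 5), (∀ i ∈ T, ∀ j ∈ T, i ≠ j → j = i + 1 ∨ i = j + 1) →
        T.card ≤ 2 := by decide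
    have := h4 (S.image Sigma.fst).toLeft fun i hi j hj e => by
      obtain ⟨x, hx, x1⟩ := mem_image.1 (mem_toLeft.1 hi)
      obtain ⟨y, hy, y1⟩ := mem_image.1 (mem_toLeft.1 hj)
      have : pat m x.1 y.1 := h.isClique hx hy fun g => e (Sum.inl_injective (by
        rw [← x1, ← y1, g]))
      rwa [x1, y1] at this
    omega
  · have h1 : ∀ T : Finset (Fin 5 ⊕ Fin m), (∀ x ∈ S, x.1 ∈ T) →
        m + 2 + 1 ≤ ∑ c ∈ T, sz (m + 2) r m c := fun T hT => by
      have := card_le_card (s := S) (t := T.sigma fun _ => univ) fun x hx =>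
        mem_sigma.2 ⟨hT x hx, mem_univ _⟩
      simpa [h.card_eq] using this
    have h2 : ∀ x ∈ S, ∀ y ∈ S, ¬ pat m x.1 y.1 := fun x hx y hy => by
      rcases eq_or_ne x y with rfl | e
      exacts [(blow (m + 2) r m).irrefl, h.isIndepSet hx hy e]
    by_cases g : ∃ x ∈ S, ∃ c, x.1 = .inr c
    · obtain ⟨x, hx, c, e⟩ := g
      have := h1 {.inr c} fun y hy => by
        have := h2 x hx y hy
        rw [e] at this
        rcases hy1 : y.1 with d | d <;> rw [hy1] at this <;> simp_all [pat]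
      simp [sz] at this
    have h4 : ∀ T : Finset (Fin 5), (∀ i ∈ T, ∀ j ∈ T, ¬ (j = i + 1 ∨ i = j + 1)) →
        ∃ i, ∀ j ∈ T, j = i ∨ j = i + 2 := by decide
    obtain ⟨i, hi⟩ := h4 (S.image Sigma.fst).toLeft fun i hi j hj => by
      obtain ⟨x, hx, x1⟩ := mem_image.1 (mem_toLeft.1 hi)
      obtain ⟨y, hy, y1⟩ := mem_image.1 (mem_toLeft.1 hj)
      have := h2 x hx y hy
      rwa [x1, y1] at this
    have := h1 {.inl i, .inl (i + 2)} fun x hx => by
      rcases e : x.1 with d | d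
      · simpa using hi d (mem_toLeft.2 (mem_image.2 ⟨x, hx, e⟩))
      · exact (g ⟨x, hx, d, e⟩).elim
    rw [sum_pair (by revert i; simp)] at this
    fin_cases i <;> simp [sz] at this <;> omega

theorem beyond (a r : ℕ) (ha : 3 ≤ a) (hr : 2 * r ≤ a) :
    exEq (a ^ 2 + r) a = a.choose 2 * a ^ 2 + (a - 2) * a * r + r ^ 2 := by
  classical
  obtain ⟨m, rfl⟩ : ∃ m, a = m + 2 := ⟨a - 2, by omega⟩
  have e1 : (2 * ((m + 2).choose 2 : ℕ) : ℤ) = (m + 2) * (m + 1) := by
    have := Nat.choose_two_right (m + 2)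
    have h2 := Nat.two_mul_div_two_of_even (Nat.even_mul_pred_self (m + 2))
    rw [← this] at h2
    exact_mod_cast h2
  have e3 : ((m + 2 : ℕ) : ℤ) ^ 3 + 4 * (m + 2 : ℕ) * r - r ^ 2 + 2 *
      (((m + 2).choose 2 * (m + 2) ^ 2 + (m + 2 - 2) * (m + 2) * r + r ^ 2 : ℕ) : ℤ) =
        (((m + 2) ^ 2 + r : ℕ) : ℤ) ^ 2 := by
    rw [Nat.add_sub_cancel]
    push_cast
    linear_combination ((m : ℤ) + 2) ^ 2 * e1
  refine le_antisymm (csSup_le' ?_) ?_
  · rintro _ ⟨G, hG, rfl⟩
    have h1 := upper ha hr (Fintype.card_fin _) ((eqNum_le_iff G).1 hG.le)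
    have h2 := NE_univ (G := G)
    rw [Fintype.card_fin] at h2
    omega
  · have h1 := le_exEq (blow_eqLe hr) (univ.map ⟨fun x : Fin (m + 2) =>
      ⟨.inr ⟨0, by omega⟩, x⟩, fun x y e => eq_of_heq (Sigma.mk.inj e).2⟩) ⟨2, one_le_two, fun x hx y hy e => by
        obtain ⟨x, -, rfl⟩ := mem_map.1 hx
        obtain ⟨y, -, rfl⟩ := mem_map.1 hy
        rw [Nat.cast_ofNat, SimpleGraph.edist_eq_two_iff]
        exact ⟨e, fun h => h rfl, ⟨.inl 2, ⟨0, by simp [sz]; omega⟩⟩, trivial, trivial⟩⟩ (by simp)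
    have h2 := NE_univ (G := blow (m + 2) r m)
    rw [blow_card (by omega)] at h1 h2
    rw [blow_NE (by omega)] at h2
    omega

end Pool.Agent.P.MP_d4bf6a_co
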