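import Mathlib

/-! Definitions for the equidistant-number extremal problem. -/

namespace Pool.Agent.P.MP_d4bf6a_co

/-- `S` is equidistant in `G`: for some integer `k ≥ 1` all pairs of distinct vertices of `S`
are at (extended, shortest-path) distance exactly `k`; vertices in different components have
`edist = ⊤`, which is never equal to a natural number. -/
def IsEquidistant {V : Type} (G : SimpleGraph V) (S : Finset V) : Prop :=
  ∃ k : ℕ, 1 ≤ k ∧ ∀ u ∈ S, ∀ v ∈ S, u ≠ v → G.edist u v = (k : ℕ∞)

/-- The equidistant number: the largest size of an equidistant set. -/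
noncomputable def eqNum {n : ℕ} (G : SimpleGraph (Fin n)) : ℕ :=
  sSup {m : ℕ | ∃ S : Finset (Fin n), IsEquidistant G S ∧ S.card = m}

/-- `ex_eq(n; a)`: the largest number of edges of a graph of order `n` with equidistant
number exactly `a`. -/
noncomputable def exEq (n a : ℕ) : ℕ :=
  sSup {m : ℕ | ∃ G : SimpleGraph (Fin n), eqNum G = a ∧ G.edgeSet.ncard = m}

/-- The Ramsey number `R(s, t)`: the least `N` such that every graph on `N` vertices has a
clique of size `s` or an independent set of size `t`. -/
noncomputable def ramseyNum (s t : ℕ) : ℕ :=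
  sInf {N : ℕ | ∀ G : SimpleGraph (Fin N),
    (∃ S : Finset (Fin N), G.IsNClique s S) ∨ (∃ S : Finset (Fin N), G.IsNIndepSet t S)}

end Pool.Agent.P.MP_d4bf6a_co
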