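import Pool.Agent.P.MP_d4bf6a_co.Defs

namespace Pool.Agent.P.MP_d4bf6a_co

open SimpleGraph Finset

/-- `A` contains an `s`-clique or a `t`-independent set. -/
def Hit {V : Type} (G : SimpleGraph V) (s t : ℕ) (A : Finset V) : Prop :=
  (∃ S ⊆ A, G.IsNClique s S) ∨ (∃ S ⊆ A, G.IsNIndepSet t S)

lemma hit_step {V : Type} (G : SimpleGraph V) (s t : ℕ) (A : Finset V) (N₁ N₂ : ℕ)
    (h₁ : ∀ B : Finset V, N₁ ≤ B.card → Hit G s (t + 1) B)
    (h₂ : ∀ B : Finset V, N₂ ≤ B.card → Hit G (s + 1) t B)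
    (hA : N₁ + N₂ ≤ A.card) (hpos : 0 < A.card) : Hit G (s + 1) (t + 1) A := by
  classical
  obtain ⟨v, hv⟩ := Finset.card_pos.mp hpos
  set B₁ := (A.erase v).filter (fun w => G.Adj v w) with hB₁
  set B₂ := (A.erase v).filter (fun w => ¬ G.Adj v w) with hB₂
  have hcard : B₁.card + B₂.card = A.card - 1 := by
    rw [hB₁, hB₂, Finset.card_filter_add_card_filter_not, Finset.card_erase_of_mem hv]
  have hsub₁ : B₁ ⊆ A := (Finset.filter_subset _ _).trans (Finset.erase_subset _ _)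
  have hsub₂ : B₂ ⊆ A := (Finset.filter_subset _ _).trans (Finset.erase_subset _ _)
  by_cases hc : N₁ ≤ B₁.card
  · rcases h₁ B₁ hc with ⟨S, hS, hcl⟩ | ⟨S, hS, hin⟩
    · left
      refine ⟨insert v S, Finset.insert_subset hv (hS.trans hsub₁), ?_⟩
      apply hcl.insert
      intro b hb
      have := hS hb
      rw [hB₁, Finset.mem_filter] at this
      exact this.2
    · exact Or.inr ⟨S, hS.trans hsub₁, hin⟩
  · have hc2 : N₂ ≤ B₂.card := by omega
    rcases h₂ B₂ hc2 with ⟨S, hS, hcl⟩ | ⟨S, hS, hin⟩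
    · exact Or.inl ⟨S, hS.trans hsub₂, hcl⟩
    · right
      refine ⟨insert v S, Finset.insert_subset hv (hS.trans hsub₂), ?_⟩
      rw [← isNClique_compl] at hin ⊢
      apply hin.insert
      intro b hb
      have := hS hb
      rw [hB₂, Finset.mem_filter, Finset.mem_erase] at this
      rw [compl_adj]
      exact ⟨fun h => this.1.1 h.symm, this.2⟩

lemma ramsey_exists (s t : ℕ) : ∃ N : ℕ, ∀ (V : Type) (G : SimpleGraph V) (A : Finset V),
    N ≤ A.card → Hit G s t A := by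
  induction s generalizing t with
  | zero => exact ⟨0, fun V G A _ => Or.inl ⟨∅, by simp, by simp⟩⟩
  | succ s ihs =>
    induction t with
    | zero =>
      refine ⟨0, fun V G A _ => Or.inr ⟨∅, by simp, ?_⟩⟩
      rw [← isNClique_compl]; simp
    | succ t iht =>
      obtain ⟨N₁, h₁⟩ := ihs (t + 1)
      obtain ⟨N₂, h₂⟩ := iht
      refine ⟨N₁ + N₂ + 1, fun V G A hA => ?_⟩
      exact hit_step G s t A N₁ N₂ (h₁ V G) (h₂ V G) (by omega) (by omega)

lemma ramseySet_nonempty (s t : ℕ) : Set.Nonempty {N : ℕ | ∀ G : SimpleGraph (Fin N),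
    (∃ S : Finset (Fin N), G.IsNClique s S) ∨ (∃ S : Finset (Fin N), G.IsNIndepSet t S)} := by
  obtain ⟨N, hN⟩ := ramsey_exists s t
  refine ⟨N, fun G => ?_⟩
  rcases hN (Fin N) G Finset.univ (by simp) with ⟨S, _, h⟩ | ⟨S, _, h⟩
  · exact Or.inl ⟨S, h⟩
  · exact Or.inr ⟨S, h⟩

/-- transfer from `Fin N` to arbitrary vertex sets. -/
lemma hit_of_fin {N s t : ℕ} (h : ∀ G : SimpleGraph (Fin N),
    (∃ S : Finset (Fin N), G.IsNClique s S) ∨ (∃ S : Finset (Fin N), G.IsNIndepSet t S))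
    {V : Type} (G : SimpleGraph V) (A : Finset V) (hA : N ≤ A.card) : Hit G s t A := by
  classical
  obtain ⟨B, hBA, hB⟩ := Finset.exists_subset_card_eq hA
  let e : Fin N ≃ B := (Finset.equivFinOfCardEq hB).symm
  let f : Fin N ↪ V := e.toEmbedding.trans (Function.Embedding.subtype _)
  have hf : ∀ i, f i ∈ A := fun i => hBA (e i).2
  rcases h (G.comap f) with ⟨S, hS⟩ | ⟨S, hS⟩
  · left
    refine ⟨S.map f, ?_, ?_⟩
    · intro x hx
      obtain ⟨i, _, rfl⟩ := Finset.mem_map.mp hx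
      exact hf i
    · refine ⟨?_, by rw [Finset.card_map, hS.card_eq]⟩
      intro x hx y hy hxy
      obtain ⟨i, hi, rfl⟩ := Finset.mem_map.mp hx
      obtain ⟨j, hj, rfl⟩ := Finset.mem_map.mp hy
      exact hS.isClique hi hj (fun h => hxy (by rw [h]))
  · right
    refine ⟨S.map f, ?_, ?_⟩
    · intro x hx
      obtain ⟨i, _, rfl⟩ := Finset.mem_map.mp hx
      exact hf i
    · refine ⟨?_, by rw [Finset.card_map, hS.card_eq]⟩
      intro x hx y hy hxy
      obtain ⟨i, hi, rfl⟩ := Finset.mem_map.mp hx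
      obtain ⟨j, hj, rfl⟩ := Finset.mem_map.mp hy
      exact hS.isIndepSet hi hj (fun h => hxy (by rw [h]))

lemma hit_of_ramseyNum_le {s t : ℕ} {V : Type} (G : SimpleGraph V) (A : Finset V)
    (hA : ramseyNum s t ≤ A.card) : Hit G s t A :=
  hit_of_fin (Nat.sInf_mem (ramseySet_nonempty s t)) G A hA

lemma exists_ramsey_graph {s t N : ℕ} (h : N < ramseyNum s t) :
    ∃ G : SimpleGraph (Fin N), (∀ S, ¬ G.IsNClique s S) ∧ (∀ S, ¬ G.IsNIndepSet t S) := by
  have := Nat.notMem_of_lt_sInf h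
  simp only [Set.mem_ofPred_eq, not_forall, not_or, not_exists] at this
  exact this

lemma ramseyNum_le {s t N : ℕ} (h : ∀ G : SimpleGraph (Fin N),
    (∃ S : Finset (Fin N), G.IsNClique s S) ∨ (∃ S : Finset (Fin N), G.IsNIndepSet t S)) :
    ramseyNum s t ≤ N := Nat.sInf_le h

lemma lt_ramseyNum {s t N : ℕ} (G : SimpleGraph (Fin N)) (h₁ : ∀ S, ¬ G.IsNClique s S)
    (h₂ : ∀ S, ¬ G.IsNIndepSet t S) : N < ramseyNum s t := by
  by_contra hlt
  rcases hit_of_ramseyNum_le (s := s) (t := t) G Finset.univ (by simp; omega) with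
    ⟨S, _, h⟩ | ⟨S, _, h⟩
  · exact h₁ S h
  · exact h₂ S h

end Pool.Agent.P.MP_d4bf6a_co
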