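import Pool.Agent.P.MP_d4bf6a_co.Basic

namespace Pool.Agent.P.MP_d4bf6a_co

open SimpleGraph Finset

/-- Boolean adjacency read from the bits of `c` -/
def adjB (c i j : ℕ) : Bool := (i != j) && (c.testBit (17 * i + j) || c.testBit (17 * j + i))

/-- graph coded by the bits of `c` -/
def gOf (r c : ℕ) : SimpleGraph (Fin r) where
  Adj i j := adjB c i j = true
  symm := ⟨fun i j h => by
    simp only [adjB, Bool.and_eq_true, bne_iff_ne, ne_eq, Bool.or_eq_true] at h ⊢
    exact ⟨fun e => h.1 e.symm, h.2.symm⟩⟩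
  loopless := ⟨fun i h => by simp [adjB] at h⟩

instance (r c : ℕ) : DecidableRel (gOf r c).Adj :=
  fun i j => inferInstanceAs (Decidable (adjB c i j = true))

/-- the check: no monochromatic four-set, and the degree sum -/
def chk (r c e : ℕ) : Bool :=
  ((List.range r).all fun x => (List.range x).all fun y => (List.range y).all fun z =>
    (List.range z).all fun w =>
      !(adjB c x y && adjB c x z && adjB c x w && adjB c y z && adjB c y w && adjB c z w) &&
      (adjB c x y || adjB c x z || adjB c x w || adjB c y z || adjB c y w || adjB c z w))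

lemma sorted_four {r : ℕ} (S : Finset (Fin r)) (h : S.card = 4) :
    ∃ x y z w : Fin r, x ∈ S ∧ y ∈ S ∧ z ∈ S ∧ w ∈ S ∧ y < x ∧ z < y ∧ w < z := by
  let f := S.orderEmbOfFin h
  exact ⟨f 3, f 2, f 1, f 0, S.orderEmbOfFin_mem h _, S.orderEmbOfFin_mem h _,
    S.orderEmbOfFin_mem h _, S.orderEmbOfFin_mem h _, f.strictMono (by decide),
    f.strictMono (by decide), f.strictMono (by decide)⟩

lemma chk_spec {r c e : ℕ} (h : chk r c e = true) :
    (∀ S, ¬ (gOf r c).IsNClique 4 S) ∧ (∀ S, ¬ (gOf r c).IsNIndepSet 4 S) := by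
  simp only [chk, List.all_eq_true, List.mem_range] at h
  constructor
  · intro S hS
    obtain ⟨x, y, z, w, hx, hy, hz, hw, h1, h2, h3⟩ := sorted_four S hS.card_eq
    have := h x x.2 y h1 z h2 w h3
    have a1 : adjB c x y = true := hS.isClique hx hy h1.ne'
    have a2 : adjB c x z = true := hS.isClique hx hz (h2.trans h1).ne'
    have a3 : adjB c x w = true := hS.isClique hx hw (h3.trans (h2.trans h1)).ne'
    have a4 : adjB c y z = true := hS.isClique hy hz h2.ne'
    have a5 : adjB c y w = true := hS.isClique hy hw (h3.trans h2).ne'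
    have a6 : adjB c z w = true := hS.isClique hz hw h3.ne'
    simp [a1, a2, a3, a4, a5, a6] at this
  · intro S hS
    obtain ⟨x, y, z, w, hx, hy, hz, hw, h1, h2, h3⟩ := sorted_four S hS.card_eq
    have := h x x.2 y h1 z h2 w h3
    have a1 : ¬ adjB c x y = true := hS.isIndepSet hx hy h1.ne'
    have a2 : ¬ adjB c x z = true := hS.isIndepSet hx hz (h2.trans h1).ne'
    have a3 : ¬ adjB c x w = true := hS.isIndepSet hx hw (h3.trans (h2.trans h1)).ne'
    have a4 : ¬ adjB c y z = true := hS.isIndepSet hy hz h2.ne'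
    have a5 : ¬ adjB c y w = true := hS.isIndepSet hy hw (h3.trans h2).ne'
    have a6 : ¬ adjB c z w = true := hS.isIndepSet hz hw h3.ne'
    simp [a1, a2, a3, a4, a5, a6] at this

lemma le_exLe_of_chk {r c e : ℕ} (h : chk r c e = true)
    (h2 : ∑ v : Fin r, (Finset.univ.filter fun w : Fin r => adjB c v w = true).card = 2 * e) :
    e ≤ exLe 3 r := by
  have h3 := le_exLe (eqLe_of_ramsey (a := 3) (chk_spec h).1 (chk_spec h).2)
  rw [Fintype.card_fin, ← coe_edgeFinset, Set.ncard_coe_finset] at h3
  have h4 := (gOf r c).sum_degrees_eq_twice_card_edges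
  have h5 : ∑ v, (gOf r c).degree v =
      ∑ v : Fin r, (Finset.univ.filter fun w : Fin r => adjB c v w = true).card := by
    refine Finset.sum_congr rfl (fun v _ => ?_)
    rw [← card_neighborFinset_eq_degree, neighborFinset_eq_filter]
    rfl
  omega

lemma ex3_2 : 1 ≤ exLe 3 2 :=
  le_exLe_of_chk (c := 2)
    (by decide +kernel) (by decide +kernel)

lemma ex3_3 : 3 ≤ exLe 3 3 :=
  le_exLe_of_chk (c := 524294)
    (by decide +kernel) (by decide +kernel)

lemma ex3_4 : 5 ≤ exLe 3 4 :=
  le_exLe_of_chk (c := 137440526346)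
    (by decide +kernel) (by decide +kernel)

lemma ex3_5 : 8 ≤ exLe 3 5 :=
  le_exLe_of_chk (c := 36029209337397274)
    (by decide +kernel) (by decide +kernel)

lemma ex3_6 : 12 ≤ exLe 3 6 :=
  le_exLe_of_chk (c := 9444805024295408369694)
    (by decide +kernel) (by decide +kernel)

lemma ex3_7 : 16 ≤ exLe 3 7 :=
  le_exLe_of_chk (c := 2475889523555929792381452382)
    (by decide +kernel) (by decide +kernel)

lemma ex3_8 : 21 ≤ exLe 3 8 :=
  le_exLe_of_chk (c := 649044534985423761064970201596124)
    (by decide +kernel) (by decide +kernel)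

lemma ex3_9 : 27 ≤ exLe 3 9 :=
  le_exLe_of_chk (c := 170142481552015092102765359462928089406)
    (by decide +kernel) (by decide +kernel)

lemma ex3_10 : 31 ≤ exLe 3 10 :=
  le_exLe_of_chk (c := 44601660542138946727497066904210125999309706)
    (by decide +kernel) (by decide +kernel)

lemma ex3_11 : 36 ≤ exLe 3 11 :=
  le_exLe_of_chk (c := 89204001650958854081502412942490572753994190)
    (by decide +kernel) (by decide +kernel)

lemma ex3_12 : 40 ≤ exLe 3 12 :=
  le_exLe_of_chk (c := 3064991081865583208775098807804196000824530238709434268)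
    (by decide +kernel) (by decide +kernel)

lemma ex3_13 : 45 ≤ exLe 3 13 :=
  le_exLe_of_chk (c := 803478217137816461607647493135015181136730939243687428757444)
    (by decide +kernel) (by decide +kernel)

lemma ex3_14 : 50 ≤ exLe 3 14 :=
  le_exLe_of_chk (c := 1606947239372540609296431674660861795857108965624454597575918)
    (by decide +kernel) (by decide +kernel)

lemma ex3_15 : 55 ≤ exLe 3 15 :=
  le_exLe_of_chk (c := 55213970779948827169531946372712576039548147305613306814803843108329944)
    (by decide +kernel) (by decide +kernel)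

lemma ex3_16 : 60 ≤ exLe 3 16 :=
  le_exLe_of_chk (c := 14474176797208729989681573135372391057210726361999362635141696414837565334294)
    (by decide +kernel) (by decide +kernel)

lemma ex3_17 : 68 ≤ exLe 3 17 :=
  le_exLe_of_chk (c := 3794318602327485314415086307999060081301448651439960918626584864971178726993273622)
    (by decide +kernel) (by decide +kernel)

lemma ex3_small (r : ℕ) (hr : r < 17) : 4 * r ≤ exLe 3 r + 12 := by
  have := ex3_4; have := ex3_5; have := ex3_6; have := ex3_7; have := ex3_8; have := ex3_9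
  have := ex3_10; have := ex3_11; have := ex3_12; have := ex3_13; have := ex3_14
  have := ex3_15; have := ex3_16
  interval_cases r <;> omega

lemma ex3_mul (q r : ℕ) : 68 * q + exLe 3 r ≤ exLe 3 (17 * q + r) := by
  induction q with
  | zero => simp
  | succ q ih =>
    have h1 := exLe_superadd (a := 3) (by norm_num) 17 (17 * q + r)
    have h2 := ex3_17
    rw [show 17 * (q + 1) + r = 17 + (17 * q + r) by ring]
    omega

lemma hit_one_left {V : Type} (G : SimpleGraph V) (t : ℕ) (A : Finset V) (h : 1 ≤ A.card) :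
    Hit G 1 t A := by
  obtain ⟨v, hv⟩ := Finset.card_pos.mp h
  exact Or.inl ⟨{v}, by simpa using hv, by simp⟩

lemma hit_one_right {V : Type} (G : SimpleGraph V) (s : ℕ) (A : Finset V) (h : 1 ≤ A.card) :
    Hit G s 1 A := by
  obtain ⟨v, hv⟩ := Finset.card_pos.mp h
  exact Or.inr ⟨{v}, by simpa using hv, by rw [← isNClique_compl]; simp⟩

lemma hit22 {V : Type} (G : SimpleGraph V) (A : Finset V) (h : 2 ≤ A.card) : Hit G 2 2 A :=
  hit_step G 1 1 A 1 1 (hit_one_left G _) (hit_one_right G _) h (by omega)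
lemma hit23 {V : Type} (G : SimpleGraph V) (A : Finset V) (h : 3 ≤ A.card) : Hit G 2 3 A :=
  hit_step G 1 2 A 1 2 (hit_one_left G _) (hit22 G) h (by omega)
lemma hit32 {V : Type} (G : SimpleGraph V) (A : Finset V) (h : 3 ≤ A.card) : Hit G 3 2 A :=
  hit_step G 2 1 A 2 1 (hit22 G) (hit_one_right G _) h (by omega)
lemma hit24 {V : Type} (G : SimpleGraph V) (A : Finset V) (h : 4 ≤ A.card) : Hit G 2 4 A :=
  hit_step G 1 3 A 1 3 (hit_one_left G _) (hit23 G) h (by omega)
lemma hit33 {V : Type} (G : SimpleGraph V) (A : Finset V) (h : 6 ≤ A.card) : Hit G 3 3 A :=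
  hit_step G 2 2 A 3 3 (hit23 G) (hit32 G) h (by omega)

lemma ramsey23 : ramseyNum 2 3 ≤ 3 := by
  apply ramseyNum_le
  intro G
  rcases hit23 G Finset.univ (by simp) with ⟨S, _, h⟩ | ⟨S, _, h⟩
  · exact Or.inl ⟨S, h⟩
  · exact Or.inr ⟨S, h⟩

lemma ramsey34 : ramseyNum 3 4 ≤ 9 := by
  classical
  apply ramseyNum_le
  intro G
  by_contra hno
  rw [not_or, not_exists, not_exists] at hno
  obtain ⟨h1, h2⟩ := hno
  have hdeg : ∀ v, G.degree v = 3 := by
    intro v
    have hle : G.degree v ≤ 3 := by
      by_contra hlt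
      rcases hit24 G (G.neighborFinset v) (by rw [card_neighborFinset_eq_degree]; omega) with
        ⟨S, hS, h⟩ | ⟨S, _, h⟩
      · exact h1 _ (h.insert (fun b hb => (mem_neighborFinset _ _ _).mp (hS hb)))
      · exact h2 _ h
    have hle' : Gᶜ.degree v ≤ 5 := by
      by_contra hlt
      rcases hit33 G (Gᶜ.neighborFinset v) (by rw [card_neighborFinset_eq_degree]; omega) with
        ⟨S, _, h⟩ | ⟨S, hS, h⟩
      · exact h1 _ h
      · rw [← isNClique_compl] at h
        have := h.insert (a := v) (fun b hb => (mem_neighborFinset _ _ _).mp (hS hb))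
        rw [isNClique_compl] at this
        exact h2 _ this
    have := G.degree_compl v
    simp only [Fintype.card_fin] at this
    omega
  have := G.sum_degrees_eq_twice_card_edges
  simp only [hdeg, Finset.sum_const, Finset.card_univ, Fintype.card_fin, smul_eq_mul] at this
  omega

lemma exLe_le_exEq_of_lt {a n : ℕ} (h : exLe a n < exLe (a + 1) n) :
    exLe (a + 1) n ≤ exEq n (a + 1) := by
  obtain ⟨G, hG, hG'⟩ := exLe_spec (a := a + 1) (by omega) n
  have h1 : ¬ EqLe G a := fun hh => by
    have := le_exLe hh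
    rw [Fintype.card_fin] at this
    omega
  simp only [EqLe, not_forall] at h1
  obtain ⟨S, hS, hc⟩ := h1
  have h2 := hG S hS
  have := le_exEq hG S hS (by omega)
  rw [Fintype.card_fin] at this
  omega

theorem main_three (n : ℕ) (hn : 3 ≤ n) :
    4 * n ≤ exEq n 3 + 12 ∧ exEq n 3 ≤ 4 * n ∧ (17 ∣ n → exEq n 3 = 4 * n) := by
  have hup : exLe 3 n ≤ 4 * n := by
    have h1 := exLe_upper (a := 3) (by norm_num) n
    have h2 := ramsey34
    have h3 : n * (ramseyNum 3 (3 + 1) - 1) ≤ n * 8 := Nat.mul_le_mul_left _ (by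
      show ramseyNum 3 4 - 1 ≤ 8
      omega)
    omega
  have hup2 : exLe 2 n ≤ n := by
    have h1 := exLe_upper (a := 2) (by norm_num) n
    have h2 := ramsey23
    have h3 : n * (ramseyNum 2 (2 + 1) - 1) ≤ n * 2 := Nat.mul_le_mul_left _ (by
      show ramseyNum 2 3 - 1 ≤ 2
      omega)
    omega
  have hq := ex3_mul (n / 17) (n % 17)
  rw [Nat.div_add_mod] at hq
  have hs := ex3_small (n % 17) (Nat.mod_lt _ (by norm_num))
  have hE := exEq_le_exLe n 3
  have hdm := Nat.div_add_mod n 17
  rcases (show n = 3 ∨ n = 4 ∨ 5 ≤ n by omega) with rfl | rfl | h5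
  · refine ⟨by omega, by omega, fun h => by omega⟩
  · have h4 := ex3_4
    have := exLe_le_exEq_of_lt (a := 2) (n := 4) (by show exLe 2 4 < exLe 3 4; omega)
    refine ⟨?_, by omega, fun h => by omega⟩
    have h6 : exLe 3 4 ≤ exEq 4 3 := this
    omega
  · have h6 : exLe 3 n ≤ exEq n 3 :=
      exLe_le_exEq_of_lt (a := 2) (n := n) (by show exLe 2 n < exLe 3 n; omega)
    refine ⟨by omega, by omega, fun h => by omega⟩

end Pool.Agent.P.MP_d4bf6a_co
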